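import Mathlib
import Pool.Agent.VM.Stmts

/-!
# Hölder's inequality for the averages
-/

set_option autoImplicit false

namespace Pool.Agent.VM.H53

open Pool.Agent.VM

theorem ho2 : Ho2Stmt := by
  intro q l X Y θ hq h0 h1 hX hY
  have hQ : (0 : ℝ) < (q : ℝ) ^ l := by positivity
  unfold Av
  set A : ℝ := ∑ ζ : Fin l → Fin q, X (fun j => (((ζ j : ℕ) : ℤ))) with hA
  set B : ℝ := ∑ ζ : Fin l → Fin q, Y (fun j => (((ζ j : ℕ) : ℤ))) with hB
  have hA0 : 0 ≤ A := Finset.sum_nonneg fun ζ _ => hX _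
  have hB0 : 0 ≤ B := Finset.sum_nonneg fun ζ _ => hY _
  have key : ∑ ζ : Fin l → Fin q, X (fun j => (((ζ j : ℕ) : ℤ))) ^ θ *
      Y (fun j => (((ζ j : ℕ) : ℤ))) ^ (1 - θ) ≤ A ^ θ * B ^ (1 - θ) := by
    rcases h0.eq_or_lt with h | h0'
    · subst h
      simp [hB]
    rcases h1.eq_or_lt with h | h1'
    · subst h
      simp [hA]
    have hc : (1 / θ).HolderConjugate (1 / (1 - θ)) := by
      rw [Real.holderConjugate_iff]
      refine ⟨?_, ?_⟩
      · rw [lt_div_iff₀ h0']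
        linarith
      · simp
    have h2 := Real.inner_le_Lp_mul_Lq_of_nonneg (s := (Finset.univ : Finset (Fin l → Fin q)))
      (f := fun ζ => X (fun j => (((ζ j : ℕ) : ℤ))) ^ θ)
      (g := fun ζ => Y (fun j => (((ζ j : ℕ) : ℤ))) ^ (1 - θ)) hc
      (fun ζ _ => Real.rpow_nonneg (hX _) _) (fun ζ _ => Real.rpow_nonneg (hY _) _)
    have h3 : ∀ ζ : Fin l → Fin q, (X (fun j => (((ζ j : ℕ) : ℤ))) ^ θ) ^ (1 / θ) =
        X (fun j => (((ζ j : ℕ) : ℤ))) := by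
      intro ζ
      rw [← Real.rpow_mul (hX _), mul_one_div_cancel h0'.ne', Real.rpow_one]
    have h4 : ∀ ζ : Fin l → Fin q, (Y (fun j => (((ζ j : ℕ) : ℤ))) ^ (1 - θ)) ^ (1 / (1 - θ)) =
        Y (fun j => (((ζ j : ℕ) : ℤ))) := by
      intro ζ
      rw [← Real.rpow_mul (hY _), mul_one_div_cancel (by linarith : (1 - θ) ≠ 0), Real.rpow_one]
    simp only [h3, h4, one_div_one_div] at h2
    exact h2
  rw [Real.div_rpow hA0 hQ.le, Real.div_rpow hB0 hQ.le, div_mul_div_comm, ← Real.rpow_add hQ]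
  rw [show θ + (1 - θ) = 1 by ring, Real.rpow_one]
  exact div_le_div_of_nonneg_right key hQ.le

theorem ho1 : Ho1Stmt := by
  intro q l f g a b hq hab hf hg
  have hs : (0 : ℝ) < (a : ℝ) + (b : ℝ) := by exact_mod_cast hab
  have h := ho2 q l (fun ζ => f ζ ^ (a + b)) (fun ζ => g ζ ^ (a + b)) ((a : ℝ) / ((a : ℝ) + b)) hq
    (by positivity) (by rw [div_le_one hs]; have : (0 : ℝ) ≤ b := by positivity
                        linarith)
    (fun ζ => pow_nonneg (hf ζ) _) (fun ζ => pow_nonneg (hg ζ) _)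
  have h1 : 1 - (a : ℝ) / ((a : ℝ) + b) = (b : ℝ) / ((a : ℝ) + b) := by
    field_simp
    ring
  have h2 : ∀ (u : ℝ) (c : ℕ), 0 ≤ u → (u ^ (a + b)) ^ ((c : ℝ) / ((a : ℝ) + b)) = u ^ c := by
    intro u c hu
    rw [← Real.rpow_natCast u (a + b), ← Real.rpow_mul hu, ← Real.rpow_natCast u c]
    congr 1
    push_cast
    field_simp
  rw [h1] at h
  have h3 : (fun ζ => (f ζ ^ (a + b)) ^ ((a : ℝ) / ((a : ℝ) + b)) *
      (g ζ ^ (a + b)) ^ ((b : ℝ) / ((a : ℝ) + b))) = fun ζ => f ζ ^ a * g ζ ^ b := by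
    funext ζ
    rw [h2 _ a (hf ζ), h2 _ b (hg ζ)]
  rw [h3] at h
  exact h

end Pool.Agent.VM.H53
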