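import Mathlib
import Pool.Agent.VM.Stmts

/-!
# Minkowski's inequality for the averages
-/

set_option autoImplicit false

namespace Pool.Agent.VM.H53

open Pool.Agent.VM

theorem mnk_aux {ι : Type*} (s : Finset ι) (r : ℕ) (hr : 1 ≤ r) (T : Finset ℕ)
    (X : ℕ → ι → ℝ) (hX : ∀ i ζ, 0 ≤ X i ζ) :
    (∑ ζ ∈ s, (∑ i ∈ T, X i ζ) ^ r) ^ (1 / (r : ℝ)) ≤
      ∑ i ∈ T, (∑ ζ ∈ s, X i ζ ^ r) ^ (1 / (r : ℝ)) := by
  classical
  have hr0 : (r : ℝ) ≠ 0 := by
    have : 0 < r := hr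
    positivity
  induction T using Finset.induction_on with
  | empty =>
    simp only [Finset.sum_empty]
    rw [zero_pow (by omega), Finset.sum_const_zero, Real.zero_rpow]
    simpa using hr0
  | insert a T ha ih =>
    rw [Finset.sum_insert ha]
    have h := Real.Lp_add_le_of_nonneg (s := s) (f := fun ζ => X a ζ)
      (g := fun ζ => ∑ i ∈ T, X i ζ) (p := (r : ℝ)) (by exact_mod_cast hr)
      (fun ζ _ => hX a ζ) (fun ζ _ => Finset.sum_nonneg fun i _ => hX i ζ)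
    simp only [Real.rpow_natCast] at h
    simp only [Finset.sum_insert ha]
    exact h.trans (by linarith)

theorem mnk : MnkStmt := by
  intro q l r T X hq hr hX
  have hQ : (0 : ℝ) < (q : ℝ) ^ l := by positivity
  have hr0 : (r : ℝ) ≠ 0 := by
    have : 0 < r := hr
    positivity
  have h := mnk_aux (Finset.univ : Finset (Fin l → Fin q)) r hr T
    (fun i ζ => X i (fun j => (((ζ j : ℕ) : ℤ)))) (fun i ζ => hX i _)
  unfold Av
  have h1 : ∀ i, ((∑ ζ : Fin l → Fin q, X i (fun j => (((ζ j : ℕ) : ℤ))) ^ r) / (q : ℝ) ^ l) ^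
      (1 / (r : ℝ)) = (∑ ζ : Fin l → Fin q, X i (fun j => (((ζ j : ℕ) : ℤ))) ^ r) ^ (1 / (r : ℝ)) /
        ((q : ℝ) ^ l) ^ (1 / (r : ℝ)) := by
    intro i
    exact Real.div_rpow (Finset.sum_nonneg fun ζ _ => pow_nonneg (hX i _) _) hQ.le _
  have hS : 0 ≤ ∑ ζ : Fin l → Fin q, (∑ i ∈ T, X i (fun j => (((ζ j : ℕ) : ℤ)))) ^ r :=
    Finset.sum_nonneg fun ζ _ => pow_nonneg (Finset.sum_nonneg fun i _ => hX i _) _
  have h2 := pow_le_pow_left₀ (Real.rpow_nonneg hS _) h r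
  have h3 : ∀ u : ℝ, 0 ≤ u → (u ^ (1 / (r : ℝ))) ^ r = u := by
    intro u hu
    rw [← Real.rpow_natCast, ← Real.rpow_mul hu, one_div_mul_cancel hr0, Real.rpow_one]
  rw [h3 _ hS] at h2
  rw [Finset.sum_congr rfl fun i _ => h1 i, ← Finset.sum_div, div_pow, h3 _ hQ.le]
  exact div_le_div_of_nonneg_right h2 hQ.le

end Pool.Agent.VM.H53
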